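import Pool.Agent.TH925.TP.Query
import Pool.Agent.H549R2.PM10

/-!
# Satisfying assignments from numbers of Hamiltonian paths
-/

set_option autoImplicit false

namespace Pool.Agent.NPC.TH925TP

open Pool.Agent.H549R2.Convex Pool.Agent.H549R2.PM Pool.Agent.NPC.Cnt Pool.Agent.NPC.H549Convex
open Pool.Agent.NPC.H549PM Pool.Agent.TH925.TP

section General

variable {α : Type} [TEnc α]

/-- powers with small exponents -/
theorem poly_pow {x n : α → ℕ} (hx : Poly x) (hn : UPoly n) : Poly (fun a => x a ^ n a) := by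
  have h1 : Poly (fun a => (List.range (n a)).map (fun _ => x a)) :=
    Poly.map (F := fun a _ => x a) hn.range (hx.comp (Poly.fst Poly.id))
  refine (poly_prod h1).congr fun a => ?_
  rw [List.map_const', List.prod_replicate, List.length_range]

theorem gf_upoly {n : α → ℕ} (hn : UPoly n) : UPoly (fun a => gf (n a)) :=
  UPoly.mul hn (UPoly.add (UPoly.mul hn (UPoly.add (UPoly.mul (UPoly.const 2) hn)
    (UPoly.const 1))) (UPoly.const 2))

theorem W_poly {n : α → ℕ} (hn : UPoly n) : Poly (fun a => W (n a)) := by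
  have h1 : Poly (fun a => n a + 1) := Poly.succ hn.toPoly
  exact Poly.mul (upoly_fact hn) (Poly.sub (poly_pow h1 (gf_upoly hn))
    (Poly.mul h1 (poly_pow hn.toPoly (gf_upoly hn))))

theorem tb_poly {A : α → LL} {r g : α → ℕ} (hA : Poly A) (hr : UPoly r) (hg : UPoly g) :
    Poly (fun a => tb (A a) (r a) (g a)) := by
  refine Poly.append ?_ ?_
  · exact Poly.map (F := fun (_ : α) (_ : ℕ) => ([] : List ℕ)) (UPoly.add hr hg).range
      (Poly.const [])
  · refine Poly.map (F := fun (a : α) j => (List.range (r a)).filter (fun i => ent (A a) i j))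
      hr.range ?_
    refine Poly.filter (p := fun (p : α × ℕ) i => ent (A p.1) i p.2)
      (UPoly.comp hr (Poly.fst Poly.id)).range ?_
    exact ent_poly.comp (Poly.pair (hA.comp (Poly.fst (Poly.fst Poly.id)))
      (Poly.pair (Poly.snd Poly.id) (Poly.snd (Poly.fst Poly.id))))

theorem cyc_poly {B : α → List (List ℕ)} (hB : Poly B) : Poly (fun a => cyc (B a)) := by
  have h1 : Poly (fun p : α × List ℕ => p.2.map (fun x => x + 1)) :=
    Poly.map (F := fun (_ : α × List ℕ) x => x + 1) (Poly.snd Poly.id)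
      (Poly.succ (Poly.snd Poly.id))
  have h2 : Poly (fun a => (B a).map (fun s => s.map (fun x => x + 1))) :=
    Poly.map (F := fun (_ : α) s => s.map (fun x => x + 1)) hB h1
  exact Poly.cons (Poly.const []) (Poly.append h2 (Poly.const [[0]]))

end General

/-- the queries for the numbers of Hamiltonian paths -/
def qsP (φ : CNF ℕ) : List (List (List ℕ)) :=
  (List.range (qF φ + 1)).map (fun t => tb (MF φ (tF (φ, t))) (rF φ) (gf (rF φ)))

/-- the queries for the numbers of Hamiltonian cycles -/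
def qsC (φ : CNF ℕ) : List (List (List ℕ)) :=
  (List.range (qF φ + 1)).map (fun t => cyc (tb (MF φ (tF (φ, t))) (rF φ) (gf (rF φ))))

theorem tbq_poly : Poly (fun p : CNF ℕ × ℕ => tb (MF p.1 (tF p)) (rF p.1) (gf (rF p.1))) :=
  tb_poly MF_poly (rF_upoly.comp (Poly.fst Poly.id)) (gf_upoly (rF_upoly.comp (Poly.fst Poly.id)))

theorem qsP_poly : Poly qsP :=
  Poly.map (F := fun (φ : CNF ℕ) t => tb (MF φ (tF (φ, t))) (rF φ) (gf (rF φ)))
    (UPoly.add qF_upoly (UPoly.const 1)).range tbq_poly

theorem qsC_poly : Poly qsC :=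
  Poly.map (F := fun (φ : CNF ℕ) t => cyc (tb (MF φ (tF (φ, t))) (rF φ) (gf (rF φ))))
    (UPoly.add qF_upoly (UPoly.const 1)).range (cyc_poly tbq_poly)

/-- the final computation -/
def postH (p : CNF ℕ × List ℕ) : ℕ :=
  alt (qF p.1) (fun t => p.2.getD t 0 / W (rF p.1) / (kF p.1).factorial) /
    (2 ^ qF p.1 * (qF p.1).factorial)

theorem postH_poly : Poly postH := by
  have hq : UPoly (fun p : CNF ℕ × List ℕ => qF p.1) := qF_upoly.comp (Poly.fst Poly.id)
  have hW : Poly (fun z : (CNF ℕ × List ℕ) × ℕ => W (rF z.1.1)) :=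
    W_poly (rF_upoly.comp (Poly.fst (Poly.fst Poly.id)))
  have h1 : Poly (fun z : (CNF ℕ × List ℕ) × ℕ =>
      z.1.2.getD z.2 0 / W (rF z.1.1) / (kF z.1.1).factorial) :=
    Poly.div (Poly.div (Poly.getD (Poly.snd (Poly.fst Poly.id)) (Poly.snd Poly.id) (Poly.const 0))
      hW) (upoly_fact (kF_upoly.comp (Poly.fst (Poly.fst Poly.id))))
  exact Poly.div (alt_poly (g := fun (p : CNF ℕ × List ℕ) t =>
    p.2.getD t 0 / W (rF p.1) / (kF p.1).factorial) hq h1) (Poly.mul (upoly_pow2 hq) (upoly_fact hq))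

theorem rF_pos (φ : CNF ℕ) : 1 ≤ rF φ := by
  have : 1 ≤ qF φ := by
    unfold qF nq
    have : 0 < ((vsL φ).length + 1) * (φ.length + 1) := by positivity
    omega
  unfold rF
  omega

theorem post_gen (φ : CNF ℕ) (ans : List ℕ)
    (h : ∀ t ≤ qF φ, ans.getD t 0 / W (rF φ) = F (MF φ t)) : postH (φ, ans) = satCount φ := by
  have h1 : alt (qF φ) (fun t => ans.getD t 0 / W (rF φ) / (kF φ).factorial) =
      2 ^ qF φ * (qF φ).factorial * satCount φ := by
    rw [alt_congr _ _ (fun t => F (MF φ t) / (kF φ).factorial)]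
    · apply alt_eq
      have h2 := sat_eq φ
      push_cast
      push_cast at h2
      exact h2
    · intro t ht
      rw [h t ht]
  rw [postH]
  simp only
  rw [h1, Nat.mul_div_cancel_left _ (by positivity)]

theorem postH_paths (φ : CNF ℕ) (f : List (List ℕ) → ℕ)
    (hf : ∀ B, TwoTransitive B → f B = hamPaths B) : postH (φ, (qsP φ).map f) = satCount φ := by
  refine post_gen φ _ fun t ht => ?_
  have hlen : (MF φ t).length = rF φ := MF_length φ t ht
  have hlq : t < ((qsP φ).map f).length := by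
    simp only [qsP, List.length_map, List.length_range]
    omega
  rw [List.getD_eq_getElem _ _ hlq, List.getElem_map]
  have h3 : (qsP φ)[t]'(by simpa using hlq) = tb (MF φ t) (rF φ) (gf (rF φ)) := by
    simp only [qsP, List.getElem_map, List.getElem_range]
    rw [tF]
    simp only
    rw [Nat.min_eq_left ht]
  rw [h3, hf _ (twoTransitive_tb _ _ _)]
  exact hamPaths_div _ (MF_square φ t ht) _ hlen (rF_pos φ)

theorem postH_cycles (φ : CNF ℕ) (f : List (List ℕ) → ℕ)
    (hf : ∀ B, TwoTransitive B → f B = hamCycles B) : postH (φ, (qsC φ).map f) = satCount φ := by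
  refine post_gen φ _ fun t ht => ?_
  have hlen : (MF φ t).length = rF φ := MF_length φ t ht
  have hlq : t < ((qsC φ).map f).length := by
    simp only [qsC, List.length_map, List.length_range]
    omega
  rw [List.getD_eq_getElem _ _ hlq, List.getElem_map]
  have h3 : (qsC φ)[t]'(by simpa using hlq) = cyc (tb (MF φ t) (rF φ) (gf (rF φ))) := by
    simp only [qsC, List.getElem_map, List.getElem_range]
    rw [tF]
    simp only
    rw [Nat.min_eq_left ht]
  rw [h3, hf _ (twoTransitive_cyc _ _ (tb_cond _ _ _))]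
  exact hamCycles_div _ (MF_square φ t ht) _ hlen (rF_pos φ)

end Pool.Agent.NPC.TH925TP
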