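import Mathlib

/-!
# Hamiltonian paths as functions: the ranks of the vertices
-/

set_option autoImplicit false

namespace Pool.Agent.TH925.TP

open Finset

/-- number of descents before position `k` -/
def rho (l : List ℕ) (k : ℕ) : ℕ :=
  ((range k).filter (fun s => l.getD (s + 1) 0 < l.getD s 0)).card

theorem rho_succ (l : List ℕ) (k : ℕ) :
    rho l (k + 1) = rho l k + if l.getD (k + 1) 0 < l.getD k 0 then 1 else 0 := by
  rw [rho, rho, Finset.range_add_one, Finset.filter_insert]
  split_ifs with h
  · rw [Finset.card_insert_of_notMem (by simp)]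
  · rfl

theorem rho_mono (l : List ℕ) : Monotone (rho l) :=
  monotone_nat_of_le_succ fun k => by rw [rho_succ]; omega

theorem rho_zero (l : List ℕ) : rho l 0 = 0 := by simp [rho]

/-- number of descents before the vertex `v` -/
def rk (l : List ℕ) (v : ℕ) : ℕ := rho l (l.idxOf v)

/-- the lexicographic order of the pairs `(R v, v)` -/
def lx (R : ℕ → ℕ) (u v : ℕ) : Prop := R u < R v ∨ (R u = R v ∧ u < v)

theorem lt_of_rho_eq {l : List ℕ} (hl : l.Nodup) {i : ℕ} : ∀ {j : ℕ}, i < j → j < l.length →
    rho l i = rho l j → l.getD i 0 < l.getD j 0 := by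
  intro j hij
  induction j, hij using Nat.le_induction with
  | base =>
    intro hj h
    rw [rho_succ] at h
    have h1 : l.getD i 0 ≠ l.getD (i + 1) 0 := by
      rw [List.getD_eq_getElem _ _ (by omega), List.getD_eq_getElem _ _ hj]
      intro h2
      have := (List.Nodup.getElem_inj_iff hl).1 h2
      omega
    show l.getD i 0 < l.getD (i + 1) 0
    split_ifs at h <;> omega
  | succ j hij ih =>
    intro hj h
    have h1 : l.getD j 0 ≠ l.getD (j + 1) 0 := by
      rw [List.getD_eq_getElem _ _ (by omega), List.getD_eq_getElem _ _ hj]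
      intro h2
      have := (List.Nodup.getElem_inj_iff hl).1 h2
      omega
    have h2 := rho_mono l (show i ≤ j by omega)
    rw [rho_succ] at h
    have h3 := ih (by omega)
    split_ifs at h
    · omega
    · have := h3 (by omega)
      omega

theorem rk_getElem {l : List ℕ} (hl : l.Nodup) (i : ℕ) (hi : i < l.length) :
    rk l l[i] = rho l i := by
  rw [rk, List.Nodup.idxOf_getElem hl]

theorem pairwise_lx {l : List ℕ} (hl : l.Nodup) : l.Pairwise (lx (rk l)) := by
  rw [List.pairwise_iff_getElem]
  intro i j hi hj hij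
  have h1 := rho_mono l hij.le
  rw [lx, rk_getElem hl i hi, rk_getElem hl j hj]
  rcases h1.lt_or_eq with h2 | h2
  · exact Or.inl h2
  · refine Or.inr ⟨h2, ?_⟩
    have := lt_of_rho_eq hl hij hj h2
    rwa [List.getD_eq_getElem _ _ hi, List.getD_eq_getElem _ _ hj] at this

theorem eq_of_sorted {l l' : List ℕ} {R : ℕ → ℕ} (h : l.Perm l') (h1 : l.Pairwise (lx R))
    (h2 : l'.Pairwise (lx R)) : l = l' := by
  refine List.Perm.eq_of_pairwise (le := lx R) ?_ h1 h2 h
  intro a b _ _ h3 h4
  unfold lx at h3 h4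
  omega

theorem eq_of_rk {l l' : List ℕ} {n : ℕ} (hl : l.Perm (List.range n))
    (hl' : l'.Perm (List.range n)) (h : ∀ v < n, rk l v = rk l' v) : l = l' := by
  have n1 : l.Nodup := hl.nodup_iff.2 List.nodup_range
  have n2 : l'.Nodup := hl'.nodup_iff.2 List.nodup_range
  refine eq_of_sorted (hl.trans hl'.symm) (pairwise_lx n1) ?_
  refine (pairwise_lx n2).imp_of_mem ?_
  intro a b ha hb h1
  have ha' : a < n := List.mem_range.1 ((hl'.mem_iff).1 ha)
  have hb' : b < n := List.mem_range.1 ((hl'.mem_iff).1 hb)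
  unfold lx at h1 ⊢
  rw [h a ha', h b hb']
  exact h1

/-! ### the tournament of a bipartite graph -/

variable (r g : ℕ) (a : ℕ → ℕ → Prop)

/-- The arcs: `0, …, r - 1` (rows), `r, …, r + g - 1` (fillers), `r + g, …, r + g + r - 1`
(columns); all arcs are ascending except for those from the column `j` to the row `i` for the
entries `a i j`. -/
def Ar (u v : ℕ) : Prop :=
  (u < v ∧ ¬ (u < r ∧ r + g ≤ v ∧ a u (v - (r + g)))) ∨
    (v < u ∧ v < r ∧ r + g ≤ u ∧ a v (u - (r + g)))

/-- Hamiltonian paths -/
def IsHP (l : List ℕ) : Prop := l.Perm (List.range (r + g + r)) ∧ l.IsChain (Ar r g a)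

/-- the descents -/
def Des (l : List ℕ) : Finset ℕ :=
  (range (r + g + r - 1)).filter (fun s => l.getD (s + 1) 0 < l.getD s 0)

variable {r g a} {l : List ℕ}

theorem IsHP.length (h : IsHP r g a l) : l.length = r + g + r := by
  rw [h.1.length_eq, List.length_range]

theorem IsHP.nodup (h : IsHP r g a l) : l.Nodup := h.1.nodup_iff.2 List.nodup_range

theorem IsHP.lt (h : IsHP r g a l) {k : ℕ} (hk : k < r + g + r) : l.getD k 0 < r + g + r := by
  have h1 : k < l.length := by rw [h.length]; exact hk
  rw [List.getD_eq_getElem _ _ h1]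
  exact List.mem_range.1 (h.1.mem_iff.1 (List.getElem_mem h1))

theorem IsHP.inj (h : IsHP r g a l) {k k' : ℕ} (hk : k < r + g + r) (hk' : k' < r + g + r)
    (e : l.getD k 0 = l.getD k' 0) : k = k' := by
  have h1 : k < l.length := by rw [h.length]; exact hk
  have h2 : k' < l.length := by rw [h.length]; exact hk'
  rw [List.getD_eq_getElem _ _ h1, List.getD_eq_getElem _ _ h2] at e
  exact (List.Nodup.getElem_inj_iff h.nodup).1 e

theorem IsHP.ar (h : IsHP r g a l) {k : ℕ} (hk : k + 1 < r + g + r) :
    Ar r g a (l.getD k 0) (l.getD (k + 1) 0) := by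
  have h1 : k + 1 < l.length := by rw [h.length]; exact hk
  rw [List.getD_eq_getElem _ _ h1, List.getD_eq_getElem _ _ (by omega)]
  exact List.isChain_iff_getElem.1 h.2 k h1

theorem IsHP.mem_des (h : IsHP r g a l) {k : ℕ} (hk : k ∈ Des r g l) :
    k + 1 < r + g + r ∧ r + g ≤ l.getD k 0 ∧ l.getD k 0 < r + g + r ∧ l.getD (k + 1) 0 < r ∧
      a (l.getD (k + 1) 0) (l.getD k 0 - (r + g)) := by
  rw [Des, mem_filter, mem_range] at hk
  have h1 := h.ar (k := k) (by omega)
  have h2 := h.lt (k := k) (by omega)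
  unfold Ar at h1
  rcases h1 with h1 | h1
  · omega
  · exact ⟨by omega, h1.2.2.1, h2, h1.2.1, h1.2.2.2⟩

theorem rho_le_des {k : ℕ} (hk : k ≤ r + g + r - 1) : rho l k ≤ (Des r g l).card := by
  unfold rho Des
  exact Finset.card_le_card (Finset.filter_subset_filter _ (Finset.range_subset_range.2 hk))

theorem rk_le_des (h : IsHP r g a l) {v : ℕ} (hv : v < r + g + r) :
    rk l v ≤ (Des r g l).card := by
  have h1 : v ∈ l := h.1.mem_iff.2 (List.mem_range.2 hv)
  have h2 := List.idxOf_lt_length_of_mem h1
  rw [h.length] at h2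
  exact rho_le_des (by omega)

theorem IsHP.image_fst (h : IsHP r g a l) :
    (Des r g l).image (fun k => l.getD k 0) ⊆ Ico (r + g) (r + g + r) := by
  intro v hv
  rw [mem_image] at hv
  obtain ⟨k, hk, rfl⟩ := hv
  have := h.mem_des hk
  rw [mem_Ico]
  omega

theorem IsHP.injOn_fst (h : IsHP r g a l) :
    Set.InjOn (fun k => l.getD k 0) (Des r g l : Set ℕ) := by
  intro k hk k' hk' e
  have h1 := (h.mem_des (mem_coe.1 hk)).1
  have h2 := (h.mem_des (mem_coe.1 hk')).1
  exact h.inj (by omega) (by omega) e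

theorem IsHP.card_des_le (h : IsHP r g a l) : (Des r g l).card ≤ r := by
  rw [← Finset.card_image_of_injOn h.injOn_fst]
  refine (Finset.card_le_card h.image_fst).trans ?_
  simp

theorem IsHP.image_snd (h : IsHP r g a l) :
    (Des r g l).image (fun k => l.getD (k + 1) 0) ⊆ range r := by
  intro v hv
  rw [mem_image] at hv
  obtain ⟨k, hk, rfl⟩ := hv
  have := h.mem_des hk
  rw [mem_range]
  omega

theorem IsHP.injOn_snd (h : IsHP r g a l) :
    Set.InjOn (fun k => l.getD (k + 1) 0) (Des r g l : Set ℕ) := by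
  intro k hk k' hk' e
  have h1 := (h.mem_des (mem_coe.1 hk)).1
  have h2 := (h.mem_des (mem_coe.1 hk')).1
  have := h.inj (by omega) (by omega) e
  omega

theorem IsHP.surj_fst (h : IsHP r g a l) (hd : (Des r g l).card = r) {j : ℕ} (hj : j < r) :
    ∃ k ∈ Des r g l, l.getD k 0 = r + g + j := by
  have h1 : (Des r g l).image (fun k => l.getD k 0) = Ico (r + g) (r + g + r) := by
    refine Finset.eq_of_subset_of_card_le h.image_fst ?_
    rw [Finset.card_image_of_injOn h.injOn_fst, hd]
    simp
  have h2 : r + g + j ∈ (Des r g l).image (fun k => l.getD k 0) := by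
    rw [h1, mem_Ico]
    omega
  rw [mem_image] at h2
  exact h2

theorem IsHP.surj_snd (h : IsHP r g a l) (hd : (Des r g l).card = r) {i : ℕ} (hi : i < r) :
    ∃ k ∈ Des r g l, l.getD (k + 1) 0 = i := by
  have h1 : (Des r g l).image (fun k => l.getD (k + 1) 0) = range r := by
    refine Finset.eq_of_subset_of_card_le h.image_snd ?_
    rw [Finset.card_image_of_injOn h.injOn_snd, hd]
    simp
  have h2 : i ∈ (Des r g l).image (fun k => l.getD (k + 1) 0) := by
    rw [h1, mem_range]
    omega
  rw [mem_image] at h2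
  exact h2

theorem rho_succ_des {k : ℕ} (hk : k ∈ Des r g l) : rho l (k + 1) = rho l k + 1 := by
  rw [Des, mem_filter] at hk
  rw [rho_succ, if_pos hk.2]

theorem rho_lt_of_des {k k' : ℕ} (hk : k ∈ Des r g l) (h : k < k') : rho l k < rho l k' := by
  have h1 := rho_mono l (show k + 1 ≤ k' by omega)
  rw [rho_succ_des hk] at h1
  omega

theorem des_eq_of_rho {k k' : ℕ} (hk : k ∈ Des r g l) (hk' : k' ∈ Des r g l)
    (h : rho l k = rho l k') : k = k' := by
  rcases lt_trichotomy k k' with h1 | h1 | h1
  · have := rho_lt_of_des hk h1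
    omega
  · exact h1
  · have := rho_lt_of_des hk' h1
    omega

theorem IsHP.rk_getD (h : IsHP r g a l) {k : ℕ} (hk : k < r + g + r) :
    rk l (l.getD k 0) = rho l k := by
  have h1 : k < l.length := by rw [h.length]; exact hk
  rw [List.getD_eq_getElem _ _ h1, rk_getElem h.nodup]

/-- the structure of the paths with `r` descents -/
theorem IsHP.row (h : IsHP r g a l) (hd : (Des r g l).card = r) {i : ℕ} (hi : i < r) :
    ∃ k ∈ Des r g l, l.getD (k + 1) 0 = i ∧ rk l i = rho l k + 1 ∧ rho l k < r := by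
  obtain ⟨k, hk, rfl⟩ := h.surj_snd hd hi
  have h1 := (h.mem_des hk).1
  refine ⟨k, hk, rfl, ?_, ?_⟩
  · rw [h.rk_getD h1, rho_succ_des hk]
  · have h2 := rho_le_des (r := r) (g := g) (l := l) (k := k + 1) (by omega)
    rw [rho_succ_des hk, hd] at h2
    omega

theorem IsHP.col (h : IsHP r g a l) (hd : (Des r g l).card = r) {j : ℕ} (hj : j < r) :
    ∃ k ∈ Des r g l, l.getD k 0 = r + g + j ∧ rk l (r + g + j) = rho l k ∧ rho l k < r := by
  obtain ⟨k, hk, he⟩ := h.surj_fst hd hj
  have h1 := (h.mem_des hk).1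
  refine ⟨k, hk, he, ?_, ?_⟩
  · rw [← he, h.rk_getD (by omega)]
  · have h2 := rho_le_des (r := r) (g := g) (l := l) (k := k + 1) (by omega)
    rw [rho_succ_des hk, hd] at h2
    omega

variable (r a) in
/-- the pairs of bijections -/
def PP : Type := {q : (Fin r → Fin r) × (Fin r → Fin r) // Function.Injective q.1 ∧
  Function.Injective q.2 ∧ ∀ i j : Fin r, q.1 i = q.2 j → a i j}

noncomputable instance : Fintype (PP r a) := by
  classical
  unfold PP
  infer_instance

/-- the pair of bijections of a path with `r` descents -/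
def toPP (l : List ℕ) (h : IsHP r g a l) (hd : (Des r g l).card = r) : PP r a :=
  ⟨(fun i => ⟨rk l i - 1, by
      obtain ⟨k, _, _, h1, h2⟩ := h.row hd i.2
      omega⟩,
    fun j => ⟨rk l (r + g + j), by
      obtain ⟨k, _, _, h1, h2⟩ := h.col hd j.2
      omega⟩), by
    refine ⟨?_, ?_, ?_⟩
    · intro i i' e
      simp only [Fin.mk.injEq] at e
      obtain ⟨k, hk, h1, h2, _⟩ := h.row hd i.2
      obtain ⟨k', hk', h1', h2', _⟩ := h.row hd i'.2
      have := des_eq_of_rho hk hk' (by omega)
      subst this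
      exact Fin.ext (h1.symm.trans h1')
    · intro j j' e
      simp only [Fin.mk.injEq] at e
      obtain ⟨k, hk, h1, h2, _⟩ := h.col hd j.2
      obtain ⟨k', hk', h1', h2', _⟩ := h.col hd j'.2
      have := des_eq_of_rho hk hk' (by omega)
      subst this
      apply Fin.ext
      omega
    · intro i j e
      simp only [Fin.mk.injEq] at e
      obtain ⟨k, hk, h1, h2, _⟩ := h.row hd i.2
      obtain ⟨k', hk', h1', h2', _⟩ := h.col hd j.2
      have := des_eq_of_rho hk hk' (by omega)
      subst this
      have h3 := (h.mem_des hk).2.2.2.2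
      rw [h1, h1'] at h3
      rwa [show r + g + (j : ℕ) - (r + g) = j by omega] at h3⟩

variable (r g a)

theorem finite_HP : Finite {l : List ℕ // IsHP r g a l} := by
  refine Finite.of_injective (β := {l : List ℕ // l ∈ (List.range (r + g + r)).permutations})
    (fun l => ⟨l.1, List.mem_permutations.2 l.2.1⟩) ?_
  intro l l' h
  simp only [Subtype.mk.injEq] at h
  exact Subtype.ext h

/-- **The upper bound.** -/
theorem card_HP_le : Nat.card {l : List ℕ // IsHP r g a l} ≤
    r ^ (r + g + r) + Nat.card (PP r a) * (r + 1) ^ g := by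
  classical
  have e : r ^ (r + g + r) + Nat.card (PP r a) * (r + 1) ^ g =
      Nat.card ((Fin (r + g + r) → Fin r) ⊕ (PP r a × (Fin g → Fin (r + 1)))) := by
    rw [Nat.card_sum, Nat.card_prod]
    simp
  rw [e]
  refine Nat.card_le_card_of_injective (fun l =>
    if hd : (Des r g l.1).card = r then
      Sum.inr (toPP l.1 l.2 hd, fun f => ⟨rk l.1 (r + f), by
        have := rk_le_des l.2 (v := r + f) (by omega)
        omega⟩)
    else Sum.inl (fun v => ⟨rk l.1 v, by
      have := rk_le_des l.2 (v := v) v.2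
      have := l.2.card_des_le
      omega⟩)) ?_
  rintro ⟨l, hl⟩ ⟨l', hl'⟩ h
  apply Subtype.ext
  simp only at h ⊢
  by_cases hd : (Des r g l).card = r
  · by_cases hd' : (Des r g l').card = r
    · rw [dif_pos hd, dif_pos hd'] at h
      simp only [Sum.inr.injEq, Prod.mk.injEq] at h
      obtain ⟨h1, h2⟩ := h
      refine eq_of_rk hl.1 hl'.1 fun v hv => ?_
      by_cases hv1 : v < r
      · have h3 := congrArg (fun q : PP r a => (q.1.1 ⟨v, hv1⟩ : ℕ)) h1
        simp only [toPP] at h3
        obtain ⟨k, _, _, h4, _⟩ := hl.row hd hv1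
        obtain ⟨k', _, _, h4', _⟩ := hl'.row hd' hv1
        omega
      · by_cases hv2 : v < r + g
        · have h3 := congrArg Fin.val (congrFun h2 ⟨v - r, by omega⟩)
          simp only at h3
          rwa [show r + (v - r) = v by omega] at h3
        · have h3 := congrArg (fun q : PP r a => (q.1.2 ⟨v - (r + g), by omega⟩ : ℕ)) h1
          simp only [toPP] at h3
          rwa [show r + g + (v - (r + g)) = v by omega] at h3
    · rw [dif_pos hd, dif_neg hd'] at h
      exact absurd h (by simp)
  · by_cases hd' : (Des r g l').card = r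
    · rw [dif_neg hd, dif_pos hd'] at h
      exact absurd h (by simp)
    · rw [dif_neg hd, dif_neg hd'] at h
      simp only [Sum.inl.injEq] at h
      refine eq_of_rk hl.1 hl'.1 fun v hv => ?_
      have := congrFun h ⟨v, hv⟩
      simpa using this

end Pool.Agent.TH925.TP
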