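import Pool.Agent.TH925.TP.Core

/-!
# Hamiltonian paths from functions
-/

set_option autoImplicit false

namespace Pool.Agent.TH925.TP

open Finset

variable {r g : ℕ} {a : ℕ → ℕ → Prop}

/-- the function on the vertices given by its three parts -/
def RR (α β : Fin r → Fin r) (γ : Fin g → Fin (r + 1)) (v : ℕ) : ℕ :=
  if h : v < r then (α ⟨v, h⟩ : ℕ) + 1
  else if h1 : v < r + g then (γ ⟨v - r, by omega⟩ : ℕ)
  else if h2 : v < r + g + r then (β ⟨v - (r + g), by omega⟩ : ℕ) else 0

theorem RR_row (α β : Fin r → Fin r) (γ : Fin g → Fin (r + 1)) (i : Fin r) :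
    RR α β γ i = α i + 1 := by
  rw [RR, dif_pos i.2]

theorem RR_fil (α β : Fin r → Fin r) (γ : Fin g → Fin (r + 1)) (f : Fin g) :
    RR α β γ (r + f) = γ f := by
  rw [RR, dif_neg (by omega), dif_pos (by omega)]
  congr 2
  apply Fin.ext
  simp

theorem RR_col (α β : Fin r → Fin r) (γ : Fin g → Fin (r + 1)) (j : Fin r) :
    RR α β γ (r + g + j) = β j := by
  rw [RR, dif_neg (by omega), dif_neg (by omega), dif_pos (by omega)]
  congr 2
  apply Fin.ext
  simp

/-- the comparison -/
def lxB (R : ℕ → ℕ) (u v : ℕ) : Bool := decide (R u < R v ∨ (R u = R v ∧ u ≤ v))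

/-- the sorted list of the vertices -/
def srt (n : ℕ) (R : ℕ → ℕ) : List ℕ := (List.range n).mergeSort (lxB R)

theorem srt_perm (n : ℕ) (R : ℕ → ℕ) : (srt n R).Perm (List.range n) := List.mergeSort_perm _ _

theorem srt_pairwise (n : ℕ) (R : ℕ → ℕ) : (srt n R).Pairwise (lx R) := by
  have h1 : (srt n R).Pairwise (fun u v => lxB R u v = true) := by
    apply List.pairwise_mergeSort
    · intro u v w h1 h2
      simp only [lxB, decide_eq_true_eq] at h1 h2 ⊢
      omega
    · intro u v
      simp only [lxB, Bool.or_eq_true, decide_eq_true_eq]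
      omega
  have h2 : (srt n R).Nodup := (srt_perm n R).nodup_iff.2 List.nodup_range
  refine (h1.and h2).imp ?_
  rintro u v ⟨h3, h4⟩
  simp only [lxB, decide_eq_true_eq] at h3
  unfold lx
  omega

section Good

variable {n : ℕ} {R : ℕ → ℕ} {l : List ℕ}

theorem not_between (hl : l.Perm (List.range n)) (hs : l.Pairwise (lx R)) {k : ℕ}
    (hk : k + 1 < l.length) {w : ℕ} (hw : w < n) (h1 : lx R (l.getD k 0) w)
    (h2 : lx R w (l.getD (k + 1) 0)) : False := by
  have hw' : w ∈ l := hl.mem_iff.2 (List.mem_range.2 hw)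
  obtain ⟨m, hm, rfl⟩ := List.mem_iff_getElem.1 hw'
  rw [List.getD_eq_getElem _ _ (by omega)] at h1
  rw [List.getD_eq_getElem _ _ hk] at h2
  rw [List.pairwise_iff_getElem] at hs
  rcases Nat.lt_or_ge k m with h3 | h3
  · rcases Nat.lt_or_ge (k + 1) m with h4 | h4
    · have := hs (k + 1) m hk hm h4
      unfold lx at this h2
      omega
    · have : m = k + 1 := by omega
      subst this
      unfold lx at h2
      omega
  · rcases Nat.lt_or_ge m k with h4 | h4
    · have := hs m k hm (by omega) h4
      unfold lx at this h1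
      omega
    · have : m = k := by omega
      subst this
      unfold lx at h1
      omega

theorem lx_step (hs : l.Pairwise (lx R)) {k : ℕ} (hk : k + 1 < l.length) :
    lx R (l.getD k 0) (l.getD (k + 1) 0) := by
  rw [List.getD_eq_getElem _ _ hk, List.getD_eq_getElem _ _ (by omega)]
  exact List.pairwise_iff_getElem.1 hs k (k + 1) (by omega) hk (by omega)

end Good

section Main

variable (q : PP r a) (γ : Fin g → Fin (r + 1)) (hγ : Function.Surjective γ)

/-- the function of a triple -/
def R3 : ℕ → ℕ := RR q.1.1 q.1.2 γ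

/-- the path of a triple -/
def pth : List ℕ := srt (r + g + r) (R3 q γ)

theorem pth_perm : (pth q γ).Perm (List.range (r + g + r)) := srt_perm _ _

theorem pth_pairwise : (pth q γ).Pairwise (lx (R3 q γ)) := srt_pairwise _ _

theorem pth_length : (pth q γ).length = r + g + r := by
  rw [(pth_perm q γ).length_eq, List.length_range]

theorem R3_le {v : ℕ} : R3 q γ v ≤ r := by
  unfold R3 RR
  split_ifs
  · have := (q.1.1 ⟨v, by assumption⟩).2
    omega
  · have := (γ ⟨v - r, by omega⟩).2
    omega
  · have := (q.1.2 ⟨v - (r + g), by omega⟩).2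
    omega
  · omega

theorem getD_lt {k : ℕ} (hk : k < r + g + r) : (pth q γ).getD k 0 < r + g + r := by
  have h1 : k < (pth q γ).length := by rw [pth_length]; exact hk
  rw [List.getD_eq_getElem _ _ h1]
  exact List.mem_range.1 ((pth_perm q γ).mem_iff.1 (List.getElem_mem h1))

/-- the row of the step number `t` -/
theorem exists_row {t : ℕ} (ht : t < r) : ∃ i : Fin r, (q.1.1 i : ℕ) = t := by
  obtain ⟨i, hi⟩ := (Finite.injective_iff_surjective.1 q.2.1) ⟨t, ht⟩
  exact ⟨i, by rw [hi]⟩

theorem exists_col {t : ℕ} (ht : t < r) : ∃ j : Fin r, (q.1.2 j : ℕ) = t := by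
  obtain ⟨j, hj⟩ := (Finite.injective_iff_surjective.1 q.2.2.1) ⟨t, ht⟩
  exact ⟨j, by rw [hj]⟩

include hγ in
theorem exists_fil {t : ℕ} (ht : t ≤ r) : ∃ f : Fin g, (γ f : ℕ) = t := by
  obtain ⟨f, hf⟩ := hγ ⟨t, by omega⟩
  exact ⟨f, by rw [hf]⟩

include hγ in
/-- the steps of the path -/
theorem step {k : ℕ} (hk : k + 1 < r + g + r) :
    Ar r g a ((pth q γ).getD k 0) ((pth q γ).getD (k + 1) 0) ∧
    ((R3 q γ ((pth q γ).getD (k + 1) 0) = R3 q γ ((pth q γ).getD k 0) ∧
      (pth q γ).getD k 0 < (pth q γ).getD (k + 1) 0) ∨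
    (R3 q γ ((pth q γ).getD (k + 1) 0) = R3 q γ ((pth q γ).getD k 0) + 1 ∧
      (pth q γ).getD (k + 1) 0 < (pth q γ).getD k 0)) := by
  have hk' : k + 1 < (pth q γ).length := by rw [pth_length]; exact hk
  have h1 := lx_step (pth_pairwise q γ) hk'
  have hu := getD_lt q γ (k := k) (by omega)
  have hv := getD_lt q γ hk
  have nb : ∀ {w : ℕ}, w < r + g + r → lx (R3 q γ) ((pth q γ).getD k 0) w →
      lx (R3 q γ) w ((pth q γ).getD (k + 1) 0) → False :=
    fun hw => not_between (pth_perm q γ) (pth_pairwise q γ) hk' hw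
  generalize (pth q γ).getD k 0 = u at *
  generalize (pth q γ).getD (k + 1) 0 = v at *
  rcases h1 with h1 | ⟨h1, h2⟩
  · -- a descent
    have hr := R3_le q γ (v := v)
    have ht : R3 q γ u < r := by omega
    obtain ⟨i, hi⟩ := exists_row q ht
    obtain ⟨j, hj⟩ := exists_col q ht
    have hRi : R3 q γ i = R3 q γ u + 1 := by
      conv_lhs => rw [R3, RR_row]
      rw [hi]
    have hRj : R3 q γ (r + g + j) = R3 q γ u := by
      conv_lhs => rw [R3, RR_col]
      exact hj
    have hju : u = r + g + j := by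
      rcases lt_trichotomy u (r + g + j) with h3 | h3 | h3
      · exact (nb (w := r + g + j) (by omega) (Or.inr ⟨hRj.symm, h3⟩)
          (Or.inl (by rw [hRj]; exact h1))).elim
      · exact h3
      · exfalso
        have h4 : R3 q γ u = q.1.2 ⟨u - (r + g), by omega⟩ := by
          have := RR_col q.1.1 q.1.2 γ ⟨u - (r + g), by omega⟩
          simp only [show r + g + (u - (r + g)) = u by omega] at this
          exact this
        have h5 : q.1.2 ⟨u - (r + g), by omega⟩ = q.1.2 j := by
          apply Fin.ext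
          rw [← h4, hj]
        have h6 := congrArg Fin.val (q.2.2.1 h5)
        simp only at h6
        omega
    have hRv : R3 q γ v = R3 q γ u + 1 := by
      by_contra h3
      exact nb (w := i) (by omega) (Or.inl (by rw [hRi]; omega)) (Or.inl (by rw [hRi]; omega))
    have hiv : v = i := by
      rcases lt_trichotomy v (i : ℕ) with h3 | h3 | h3
      · exfalso
        have h4 : R3 q γ v = q.1.1 ⟨v, by omega⟩ + 1 := by
          have := RR_row q.1.1 q.1.2 γ ⟨v, by omega⟩
          exact this
        have h5 : q.1.1 ⟨v, by omega⟩ = q.1.1 i := by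
          apply Fin.ext
          omega
        have h6 := congrArg Fin.val (q.2.1 h5)
        simp only at h6
        omega
      · exact h3
      · exact (nb (w := i) (by omega) (Or.inl (by rw [hRi]; omega))
          (Or.inr ⟨by rw [hRi]; omega, h3⟩)).elim
    have ha : a i j := q.2.2.2 i j (Fin.ext (by rw [hi, hj]))
    refine ⟨Or.inr ⟨by omega, by omega, by omega, ?_⟩, Or.inr ⟨hRv, by omega⟩⟩
    rw [hiv, hju, show r + g + (j : ℕ) - (r + g) = j by omega]
    exact ha
  · refine ⟨Or.inl ⟨h2, ?_⟩, Or.inl ⟨h1.symm, h2⟩⟩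
    rintro ⟨h3, h4, _⟩
    obtain ⟨f, hf⟩ := exists_fil γ hγ (R3_le q γ (v := u))
    have hRf : R3 q γ (r + f) = R3 q γ u := by
      conv_lhs => rw [R3, RR_fil]
      exact hf
    exact nb (w := r + f) (by omega) (Or.inr ⟨hRf.symm, by omega⟩)
      (Or.inr ⟨by rw [hRf]; exact h1, by omega⟩)

include hγ in
theorem isHP_pth : IsHP r g a (pth q γ) := by
  refine ⟨pth_perm q γ, ?_⟩
  rw [List.isChain_iff_getElem]
  intro k hk
  have h1 := (step q γ hγ (k := k) (by rw [pth_length] at hk; exact hk)).1
  rwa [List.getD_eq_getElem _ _ hk, List.getD_eq_getElem _ _ (by omega)] at h1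

include hγ in
/-- the function is recovered from the path -/
theorem R3_getD : ∀ {k : ℕ}, k < r + g + r → R3 q γ ((pth q γ).getD k 0) = rho (pth q γ) k := by
  intro k
  induction k with
  | zero =>
    intro h0
    rw [rho_zero]
    by_contra hne
    obtain ⟨f, hf⟩ := exists_fil γ hγ (Nat.zero_le r)
    have hRf : R3 q γ (r + f) = 0 := by
      rw [R3, RR_fil]
      exact hf
    have hmem : r + (f : ℕ) ∈ pth q γ :=
      (pth_perm q γ).mem_iff.2 (List.mem_range.2 (by omega))
    obtain ⟨m, hm, he⟩ := List.mem_iff_getElem.1 hmem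
    have h0' : 0 < (pth q γ).length := by rw [pth_length]; exact h0
    rw [List.getD_eq_getElem _ _ h0'] at hne
    rcases Nat.eq_zero_or_pos m with h1 | h1
    · subst h1
      rw [he] at hne
      exact hne hRf
    · have h2 := List.pairwise_iff_getElem.1 (pth_pairwise q γ) 0 m h0' hm h1
      rw [he] at h2
      unfold lx at h2
      omega
  | succ k ih =>
    intro hk
    have h1 := ih (by omega)
    have h2 := (step q γ hγ hk).2
    rw [rho_succ]
    rcases h2 with ⟨h2, h3⟩ | ⟨h2, h3⟩
    · rw [if_neg (by omega), h2, h1]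
      rfl
    · rw [if_pos h3, h2, h1]

include hγ in
theorem R3_eq_rk {v : ℕ} (hv : v < r + g + r) : R3 q γ v = rk (pth q γ) v := by
  have hmem : v ∈ pth q γ := (pth_perm q γ).mem_iff.2 (List.mem_range.2 hv)
  have h1 := List.idxOf_lt_length_of_mem hmem
  have h2 := R3_getD q γ hγ (k := (pth q γ).idxOf v) (by rw [pth_length] at h1; exact h1)
  rw [List.getD_eq_getElem _ _ h1, List.getElem_idxOf] at h2
  exact h2

end Main

variable (r g a)

theorem card_not_surj : (univ.filter (fun γ : Fin g → Fin (r + 1) =>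
    ¬ Function.Surjective γ)).card ≤ (r + 1) * r ^ g := by
  classical
  have h1 : univ.filter (fun γ : Fin g → Fin (r + 1) => ¬ Function.Surjective γ) ⊆
      univ.biUnion (fun t : Fin (r + 1) => Fintype.piFinset (fun _ : Fin g => univ.erase t)) := by
    intro γ hγ
    rw [mem_filter, Function.Surjective] at hγ
    push Not at hγ
    obtain ⟨t, ht⟩ := hγ.2
    rw [mem_biUnion]
    refine ⟨t, mem_univ _, ?_⟩
    rw [Fintype.mem_piFinset]
    intro f
    rw [mem_erase]
    exact ⟨ht f, mem_univ _⟩
  refine (Finset.card_le_card h1).trans (Finset.card_biUnion_le.trans ?_)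
  simp [Fintype.card_piFinset]

theorem card_surj : (r + 1) ^ g - (r + 1) * r ^ g ≤
    Nat.card {γ : Fin g → Fin (r + 1) // Function.Surjective γ} := by
  classical
  rw [Nat.card_eq_fintype_card, Fintype.card_subtype]
  have h1 := Finset.card_filter_add_card_filter_not (s := (univ : Finset (Fin g → Fin (r + 1))))
    (fun γ => Function.Surjective γ)
  have h2 := card_not_surj r g
  have h3 : (univ : Finset (Fin g → Fin (r + 1))).card = (r + 1) ^ g := by simp
  omega

/-- **The lower bound.** -/
theorem le_card_HP : Nat.card (PP r a) * ((r + 1) ^ g - (r + 1) * r ^ g) ≤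
    Nat.card {l : List ℕ // IsHP r g a l} := by
  classical
  refine (Nat.mul_le_mul_left _ (card_surj r g)).trans ?_
  rw [← Nat.card_prod]
  have := finite_HP r g a
  refine Nat.card_le_card_of_injective (fun x : PP r a × {γ : Fin g → Fin (r + 1) //
    Function.Surjective γ} => (⟨pth x.1 x.2.1, isHP_pth x.1 x.2.1 x.2.2⟩ :
      {l : List ℕ // IsHP r g a l})) ?_
  rintro ⟨q, γ, hγ⟩ ⟨q', γ', hγ'⟩ h
  simp only [Subtype.mk.injEq] at h
  have hR : ∀ v < r + g + r, R3 q γ v = R3 q' γ' v := by
    intro v hv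
    rw [R3_eq_rk q γ hγ hv, R3_eq_rk q' γ' hγ' hv, h]
  have h1 : q = q' := by
    apply Subtype.ext
    apply Prod.ext
    · funext i
      have := hR i (by omega)
      rw [R3, R3, RR_row, RR_row] at this
      exact Fin.ext (by omega)
    · funext j
      have := hR (r + g + j) (by omega)
      rw [R3, R3, RR_col, RR_col] at this
      exact Fin.ext (by omega)
  have h2 : γ = γ' := by
    funext f
    have := hR (r + f) (by omega)
    rw [R3, R3, RR_fil, RR_fil] at this
    exact Fin.ext (by omega)
  subst h1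
  subst h2
  rfl

end Pool.Agent.TH925.TP
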