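import Mathlib

/-!
# Hamiltonian paths and cycles of tournaments
-/

set_option autoImplicit false

namespace Pool.Agent.TH925.TP

/-- The arcs of the tournament of a list `B` of lists. The vertices are `0, …, B.length - 1`. For
`u < v` the arc between `u` and `v` goes from `v` to `u` if `u` is in the list number `v`, and from
`u` to `v` otherwise. -/
def Arc (B : List (List ℕ)) (u v : ℕ) : Prop :=
  (u < v ∧ u ∉ B.getD v []) ∨ (v < u ∧ v ∈ B.getD u [])

/-- The number of Hamiltonian paths: the orderings of the vertices such that there is an arc from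
every vertex to the next one. -/
noncomputable def hamPaths (B : List (List ℕ)) : ℕ :=
  Nat.card {l : List ℕ // l.Perm (List.range B.length) ∧ l.IsChain (Arc B)}

/-- The number of Hamiltonian cycles, each written as a closed walk from the vertex `0` to the vertex
`0` that visits every other vertex exactly once. -/
noncomputable def hamCycles (B : List (List ℕ)) : ℕ :=
  Nat.card {l : List ℕ // (0 :: l).Perm (List.range B.length) ∧ (0 :: (l ++ [0])).IsChain (Arc B)}

/-- the arcs between the vertices in `S` form a transitive relation -/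
def TransOn (B : List (List ℕ)) (S : Set ℕ) : Prop :=
  ∀ u v w : ℕ, u < B.length → v < B.length → w < B.length → u ∈ S → v ∈ S → w ∈ S →
    Arc B u v → Arc B v w → Arc B u w

/-- The vertex set is the union of two transitive subtournaments. -/
def TwoTransitive (B : List (List ℕ)) : Prop := ∃ S : Set ℕ, TransOn B S ∧ TransOn B Sᶜ

/-- a criterion -/
theorem twoTransitive_of (B : List (List ℕ)) (S : Set ℕ) (h : ∀ u v, u < v → v < B.length →
    u ∈ B.getD v [] → (u ∈ S ∧ v ∉ S)) : TwoTransitive B := by
  have h1 : ∀ u v, u < B.length → v < B.length → (u ∈ S ↔ v ∈ S) → (Arc B u v ↔ u < v) := by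
    intro u v hu hv h2
    unfold Arc
    constructor
    · rintro (h3 | h3)
      · exact h3.1
      · have := h v u h3.1 hu h3.2
        tauto
    · intro h3
      refine Or.inl ⟨h3, fun h4 => ?_⟩
      have := h u v h3 hv h4
      tauto
  refine ⟨S, ?_, ?_⟩
  · intro u v w hu hv hw h2 h3 h4 h5 h6
    rw [h1 u v hu hv (by tauto)] at h5
    rw [h1 v w hv hw (by tauto)] at h6
    rw [h1 u w hu hw (by tauto)]
    omega
  · intro u v w hu hv hw h2 h3 h4 h5 h6
    rw [Set.mem_compl_iff] at h2 h3 h4
    rw [h1 u v hu hv (by tauto)] at h5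
    rw [h1 v w hv hw (by tauto)] at h6
    rw [h1 u w hu hw (by tauto)]
    omega

/-! ### Adding a source, a sink and the arc from the sink to the source -/

/-- the new tournament -/
def cyc (B : List (List ℕ)) : List (List ℕ) :=
  [] :: (B.map (fun s => s.map (fun x => x + 1)) ++ [[0]])

theorem cyc_length (B : List (List ℕ)) : (cyc B).length = B.length + 2 := by
  simp [cyc]

theorem cyc_zero (B : List (List ℕ)) : (cyc B).getD 0 [] = [] := rfl

theorem cyc_mid (B : List (List ℕ)) {v : ℕ} (hv : v < B.length) :
    (cyc B).getD (v + 1) [] = (B.getD v []).map (fun x => x + 1) := by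
  rw [cyc, List.getD_cons_succ, List.getD_append _ _ _ _ (by simpa using hv),
    List.getD_eq_getElem _ _ (by simpa using hv), List.getElem_map, List.getD_eq_getElem _ _ hv]

theorem cyc_last (B : List (List ℕ)) : (cyc B).getD (B.length + 1) [] = [0] := by
  rw [cyc, List.getD_cons_succ, List.getD_append_right _ _ _ _ (by simp)]
  simp

theorem arc_mid (B : List (List ℕ)) {u v : ℕ} (hu : u < B.length) (hv : v < B.length) :
    Arc (cyc B) (u + 1) (v + 1) ↔ Arc B u v := by
  unfold Arc
  rw [cyc_mid B hu, cyc_mid B hv]
  simp

theorem arc_src (B : List (List ℕ)) {v : ℕ} (hv : v < B.length) : Arc (cyc B) 0 (v + 1) := by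
  left
  rw [cyc_mid B hv]
  simp

theorem arc_snk (B : List (List ℕ)) {u : ℕ} (hu : u < B.length) :
    Arc (cyc B) (u + 1) (B.length + 1) := by
  left
  rw [cyc_last B]
  refine ⟨by omega, by simp⟩

theorem arc_back (B : List (List ℕ)) : Arc (cyc B) (B.length + 1) 0 := by
  right
  rw [cyc_last B]
  simp

theorem arc_to_zero (B : List (List ℕ)) {u : ℕ} (hu : u < B.length + 2) (h : Arc (cyc B) u 0) :
    u = B.length + 1 := by
  unfold Arc at h
  rcases h with h | h
  · omega
  · rcases Nat.lt_or_ge (u - 1) B.length with h1 | h1
    · have h2 := cyc_mid B h1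
      rw [show u - 1 + 1 = u by omega] at h2
      rw [h2] at h
      simp at h
    · omega

/-- the cycle of a path -/
def toCyc (n : ℕ) (l : List ℕ) : List ℕ := l.map (fun x => x + 1) ++ [n + 1]

theorem range_add_two (n : ℕ) : List.range (n + 2) =
    0 :: ((List.range n).map (fun x => x + 1) ++ [n + 1]) := by
  rw [List.range_succ_eq_map, List.range_succ]
  simp

theorem isChain_getD {R : ℕ → ℕ → Prop} {l : List ℕ} :
    l.IsChain R ↔ ∀ i, i + 1 < l.length → R (l.getD i 0) (l.getD (i + 1) 0) := by
  rw [List.isChain_iff_getElem]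
  refine forall_congr' fun i => forall_congr' fun hi => ?_
  rw [List.getD_eq_getElem _ _ hi, List.getD_eq_getElem _ _ (by omega)]

theorem isChain_congr_mem {R R' : ℕ → ℕ → Prop} {l : List ℕ}
    (h : ∀ u ∈ l, ∀ v ∈ l, (R u v ↔ R' u v)) : l.IsChain R ↔ l.IsChain R' := by
  rw [List.isChain_iff_getElem, List.isChain_iff_getElem]
  refine forall_congr' fun i => forall_congr' fun hi => ?_
  exact h _ (List.getElem_mem _) _ (List.getElem_mem _)

theorem chain_map (B : List (List ℕ)) {l : List ℕ} (hl : ∀ v ∈ l, v < B.length) :
    (l.map (fun x => x + 1)).IsChain (Arc (cyc B)) ↔ l.IsChain (Arc B) := by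
  rw [List.isChain_map]
  exact isChain_congr_mem fun u hu v hv => arc_mid B (hl u hu) (hl v hv)

theorem hamCycles_cyc (B : List (List ℕ)) (hB : 1 ≤ B.length) : hamCycles (cyc B) = hamPaths B := by
  symm
  unfold hamPaths hamCycles
  rw [cyc_length]
  set n := B.length with hn
  refine Nat.card_congr (Equiv.ofBijective (fun l => (⟨toCyc n l.1, ?_, ?_⟩ :
    {l : List ℕ // (0 :: l).Perm (List.range (n + 2)) ∧
      (0 :: (l ++ [0])).IsChain (Arc (cyc B))})) ⟨?_, ?_⟩)
  · rw [range_add_two, toCyc]
    exact ((l.2.1.map _).append_right _).cons _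
  · obtain ⟨l, h1, h2⟩ := l
    have hlt : ∀ v ∈ l, v < n := fun v hv => List.mem_range.1 (h1.mem_iff.1 hv)
    have hne : l ≠ [] := by
      rintro rfl
      have := h1.length_eq
      rw [List.length_range, List.length_nil] at this
      omega
    show (0 :: (toCyc n l ++ [0])).IsChain (Arc (cyc B))
    rw [toCyc, List.append_assoc, List.isChain_cons, List.isChain_append]
    refine ⟨?_, (chain_map B hlt).2 h2, ?_, ?_⟩
    · intro y hy
      rw [List.head?_append_of_ne_nil _ (by simpa using hne), List.head?_map] at hy
      obtain ⟨x, hx, rfl⟩ := Option.map_eq_some_iff.1 hy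
      exact arc_src B (hlt x (List.mem_of_head? hx))
    · simp only [List.singleton_append, List.isChain_cons_cons, List.isChain_singleton, and_true]
      exact arc_back B
    · intro x hx y hy
      rw [List.getLast?_map] at hx
      obtain ⟨x', hx', rfl⟩ := Option.map_eq_some_iff.1 hx
      simp only [List.singleton_append, List.head?_cons, Option.mem_def, Option.some.injEq] at hy
      subst hy
      exact arc_snk B (hlt x' (List.mem_of_getLast? hx'))
  · rintro ⟨l, h1, h2⟩ ⟨l', h1', h2'⟩ h
    simp only [Subtype.mk.injEq, toCyc] at h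
    apply Subtype.ext
    have h3 := List.append_cancel_right h
    exact List.map_injective_iff.2 (fun a b hab => by simpa using hab) h3
  · rintro ⟨l, h1, h2⟩
    have hlen : l.length = n + 1 := by
      have := h1.length_eq
      simp only [List.length_cons, List.length_range] at this
      omega
    have hne : l ≠ [] := by
      rintro rfl
      simp at hlen
    have hlast : l.getLast hne = n + 1 := by
      have hmem : l.getLast hne < n + 2 :=
        List.mem_range.1 (h1.mem_iff.1 (List.mem_cons_of_mem _ (List.getLast_mem hne)))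
      refine arc_to_zero B hmem ?_
      have h3 : (l ++ [0]).IsChain (Arc (cyc B)) := by
        rw [List.isChain_cons] at h2
        exact h2.2
      rw [List.isChain_append] at h3
      exact h3.2.2 _ (List.getLast?_eq_some_getLast hne) 0 (by simp)
    have hdl := List.dropLast_append_getLast hne
    rw [hlast] at hdl
    have hp : l.dropLast.Perm ((List.range n).map (fun x => x + 1)) := by
      rw [range_add_two, ← hdl] at h1
      exact (List.perm_append_right_iff _).1 ((List.perm_cons _).1 h1)
    have hmap : (l.dropLast.map (fun x => x - 1)).map (fun x => x + 1) = l.dropLast := by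
      rw [List.map_map]
      refine (List.map_congr_left fun x hx => ?_).trans (List.map_id _)
      have h4 := hp.mem_iff.1 hx
      rw [List.mem_map] at h4
      obtain ⟨y, _, rfl⟩ := h4
      simp
    have hp2 : (l.dropLast.map (fun x => x - 1)).Perm (List.range n) := by
      have := hp.map (fun x => x - 1)
      rw [List.map_map] at this
      refine this.trans (List.Perm.of_eq ?_)
      refine (List.map_congr_left fun x _ => ?_).trans (List.map_id _)
      simp
    refine ⟨⟨l.dropLast.map (fun x => x - 1), hp2, ?_⟩, ?_⟩
    · rw [← chain_map B (fun v hv => List.mem_range.1 (hp2.mem_iff.1 hv)), hmap]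
      have h3 : (l ++ [0]).IsChain (Arc (cyc B)) := by
        rw [List.isChain_cons] at h2
        exact h2.2
      rw [List.isChain_append] at h3
      have h5 := h3.1
      rw [← hdl, List.isChain_append] at h5
      exact h5.1
    · apply Subtype.ext
      show toCyc n _ = l
      rw [toCyc, hmap, hdl]

theorem twoTransitive_cyc (B : List (List ℕ)) (S : Set ℕ) (h : ∀ u v, u < v → v < B.length →
    u ∈ B.getD v [] → (u ∈ S ∧ v ∉ S)) : TwoTransitive (cyc B) := by
  refine twoTransitive_of (cyc B) {x | x = 0 ∨ (x ≠ B.length + 1 ∧ x - 1 ∈ S)} ?_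
  intro u v huv hv hu
  rw [cyc_length] at hv
  rcases Nat.lt_or_ge v (B.length + 1) with h1 | h1
  · obtain ⟨v', rfl⟩ : ∃ v', v = v' + 1 := ⟨v - 1, by omega⟩
    rw [cyc_mid B (by omega), List.mem_map] at hu
    obtain ⟨u', hu', rfl⟩ := hu
    have h2 := h u' v' (by omega) (by omega) hu'
    constructor
    · right
      simp only [Nat.add_sub_cancel]
      exact ⟨by omega, h2.1⟩
    · rintro (h3 | h3)
      · omega
      · simp only [Nat.add_sub_cancel] at h3
        exact h2.2 h3.2
  · have : v = B.length + 1 := by omega
    subst this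
    rw [cyc_last] at hu
    have hu0 : u = 0 := by simpa using hu
    subst hu0
    constructor
    · left
      rfl
    · rintro (h3 | h3)
      · omega
      · exact h3.1 rfl

end Pool.Agent.TH925.TP
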