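import Pool.Agent.TH925.TP.Mem
import Pool.Agent.W901.NU.ClsC
import Pool.Agent.W901.NU.PPc

/-!
# `PP ⊆ PH` and the numbers of Hamiltonian paths and cycles of tournaments
-/

set_option autoImplicit false

namespace Pool.Agent.TH925.TP.Fin

open Pool.Agent.NPC Pool.Agent.H251R5.PQ Pool.Agent.W901.AT Pool.Agent.H579R2.Spt
open Pool.Agent.W901.NU
open Pool.Agent.NPC.Cnt (CNF satCount CountP)
open Pool.Agent.NPC.TH925TP Pool.Agent.TH925.TP
open Pool.Agent.W903.GP (InPH)

variable {C : Set (List Bool) → Prop}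

/-- from predicates to languages -/
theorem lang_of_cpr (hC : Cl C) {α : Type} [TEnc α] [TDec α] {P : α → Prop} (h : CPr C P) :
    C (lang P) := by
  have h1 := h.part hC (f := fun x : List Bool => unbits α x) poly_unbits
  have h2 := CPr.to_raw hC h1
  have e : lang P = {x | ∃ b, unbits α x = some b ∧ P b} := by
    ext x
    rw [mem_lang_iff]
    rfl
  rw [e]
  exact h2

section

variable {f : List (List ℕ) → ℕ} {qs : CNF ℕ → List (List (List ℕ))}

theorem sz_of_size (hsize : ∀ B, (f B).size ≤ B.length * B.length + 1) (B : List (List ℕ)) :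
    sz (f B) ≤ 4 * (sz B * sz B + 1) + 1 := by
  have h1 := sz_nat_le (f B)
  have h2 := hsize B
  have h3 := (length_lt_sz B).le
  have h4 := Nat.mul_le_mul h3 h3
  omega

/-- the numbers of satisfying assignments -/
theorem cpr_thr (hC : Cl C) (hqs : Poly qs) (hpost : ∀ φ, postH (φ, (qs φ).map f) = satCount φ)
    (hsize : ∀ B, (f B).size ≤ B.length * B.length + 1) {A : Set (List Bool)} (hA : C A)
    (hAf : ∀ φ, ∀ B ∈ qs φ, ∀ k : ℕ, bits (B, k) ∈ A ↔ f B = k) :
    CPr C (thr (fun φ : CNF ℕ => satCount φ)) := by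
  obtain ⟨c, hc⟩ := hqs.sz_le
  have hG : CPr C (fun z : List (List ℕ) × ℕ => bits z ∈ A) := ⟨A, hA, fun _ => Iff.rfl⟩
  -- the guessed answers are right
  have h1 : CPr C (fun y : (CNF ℕ × ℕ) × List ℕ =>
      ∀ z ∈ (qs y.1.1).zip y.2, bits z ∈ A) := by
    refine CPr.allMem hC (l := fun y : (CNF ℕ × ℕ) × List ℕ => (qs y.1.1).zip y.2)
      (P := fun q : ((CNF ℕ × ℕ) × List ℕ) × (List (List ℕ) × ℕ) => bits q.2 ∈ A) ?_ ?_
    · exact NPC.Poly.zip (hqs.comp (NPC.Poly.fst (NPC.Poly.fst Poly.id))) (NPC.Poly.snd Poly.id)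
    · exact hG.comp hC (f := fun q : ((CNF ℕ × ℕ) × List ℕ) × (List (List ℕ) × ℕ) => q.2)
        (NPC.Poly.snd Poly.id)
  have h2 : CPr C (fun y : (CNF ℕ × ℕ) × List ℕ =>
      (decide (y.2.length = (qs y.1.1).length) && (decide (1 ≤ y.1.2) &&
        decide (y.1.2 ≤ postH (y.1.1, y.2)))) = true) := by
    refine CPr.poly hC ?_
    have e1 : Poly (fun y : (CNF ℕ × ℕ) × List ℕ => y.1.2) := Poly.snd (NPC.Poly.fst Poly.id)
    exact NPC.Poly.and (NPC.Poly.decide_eq (NPC.Poly.length (NPC.Poly.snd Poly.id))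
      (NPC.Poly.length (hqs.comp (NPC.Poly.fst (NPC.Poly.fst Poly.id))))) (NPC.Poly.and
        (NPC.Poly.decide_le (NPC.Poly.const 1) e1) (NPC.Poly.decide_le e1
          (postH_poly.comp (f := fun y : (CNF ℕ × ℕ) × List ℕ => (y.1.1, y.2))
            (NPC.Poly.pair (NPC.Poly.fst (NPC.Poly.fst Poly.id)) (NPC.Poly.snd Poly.id)))))
  refine ((h1.and hC h2).ex hC (c * (Polynomial.C 4 * (c * c + 1) + 2) + 1)).congr ?_
  rintro ⟨φ, k⟩
  simp only [Bool.and_eq_true, decide_eq_true_eq, thr]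
  constructor
  · rintro ⟨v, _, h3, h4, h5, h6⟩
    have e : v = (qs φ).map f := by
      apply List.ext_getElem
      · rw [h4, List.length_map]
      · intro i hi hi'
        rw [List.length_map] at hi'
        rw [List.getElem_map]
        have h7 : ((qs φ)[i], v[i]) ∈ (qs φ).zip v := by
          rw [List.mem_iff_getElem]
          exact ⟨i, by simp; omega, by simp⟩
        exact ((hAf φ _ (List.getElem_mem hi') _).1 (h3 _ h7)).symm
    rw [e, hpost] at h6
    exact ⟨h5, h6⟩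
  · rintro ⟨h5, h6⟩
    refine ⟨(qs φ).map f, ?_, ?_, by rw [List.length_map], h5, by rw [hpost]; exact h6⟩
    · have h7 : ∀ a ∈ (qs φ).map f, sz a ≤ 4 * (c.eval (sz (φ, k)) * c.eval (sz (φ, k)) + 1) + 1 := by
        intro a ha
        rw [List.mem_map] at ha
        obtain ⟨q, hq, rfl⟩ := ha
        have h8 : sz q ≤ c.eval (sz (φ, k)) := by
          refine (sz_le_of_mem hq).le.trans ((hc φ).trans (eval_mono c ?_))
          rw [sz_pair]
          omega
        have h9 := sz_of_size hsize q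
        have h10 := Nat.mul_le_mul h8 h8
        omega
      have h8 := sz_le_length_mul _ _ h7
      rw [List.length_map] at h8
      have h9 : (qs φ).length ≤ c.eval (sz (φ, k)) := by
        refine (length_lt_sz _).le.trans ((hc φ).trans (eval_mono c ?_))
        rw [sz_pair]
        omega
      simp only [Polynomial.eval_add, Polynomial.eval_mul, Polynomial.eval_C,
        Polynomial.eval_one, Polynomial.eval_ofNat]
      have h10 : (qs φ).length * (4 * (c.eval (sz (φ, k)) * c.eval (sz (φ, k)) + 1) + 1 + 1) ≤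
          c.eval (sz (φ, k)) * (4 * (c.eval (sz (φ, k)) * c.eval (sz (φ, k)) + 1) + 2) :=
        Nat.mul_le_mul h9 (by omega)
      omega
    · intro z hz
      rw [List.mem_iff_getElem] at hz
      obtain ⟨i, hi, he⟩ := hz
      simp only [List.getElem_zip, List.getElem_map] at he
      rw [← he]
      exact (hAf φ _ (List.getElem_mem _) _).2 rfl

theorem pp_sub (hC : Cl C) (hqs : Poly qs) (hpost : ∀ φ, postH (φ, (qs φ).map f) = satCount φ)
    (hsize : ∀ B, (f B).size ≤ B.length * B.length + 1) {A : Set (List Bool)} (hA : C A)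
    (hAf : ∀ φ, ∀ B ∈ qs φ, ∀ k : ℕ, bits (B, k) ∈ A ↔ f B = k) {L : Set (List Bool)}
    (hL : InPPclass L) : C L := by
  have h1 := lang_of_cpr hC (cpr_thr hC hqs hpost hsize hA hAf)
  obtain ⟨g, hg, h2⟩ := thrSat_hard L hL
  have h3 := hC.pre (PIso.poly_iff.2 hg) h1
  have e : L = g ⁻¹' (lang (thr fun φ : CNF ℕ => satCount φ)) := by
    ext x
    exact h2 x
  rw [e]
  exact h3

/-- the three forms -/
theorem tfae (hC : Cl C) (hqs : Poly qs) (hpost : ∀ φ, postH (φ, (qs φ).map f) = satCount φ)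
    (hqs2 : ∀ φ, ∀ B ∈ qs φ, TwoTransitive B) (hf : CountP f)
    (hsize : ∀ B, (f B).size ≤ B.length * B.length + 1) : List.TFAE [
      ∀ L : Set (List Bool), InPPclass L → C L,
      C (lang fun x : List (List ℕ) × ℕ => x.2 < f x.1),
      ∃ A : Set (List Bool), C A ∧ ∀ (B : List (List ℕ)) (k : ℕ), TwoTransitive B →
        (bits (B, k) ∈ A ↔ k < f B),
      ∃ A : Set (List Bool), C A ∧ ∀ (B : List (List ℕ)) (k : ℕ), TwoTransitive B →
        (bits (B, k) ∈ A ↔ f B = k)] := by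
  tfae_have 1 → 2 := fun h => h _ (Pool.Agent.NPC.G276.inPP_lt (CountP.ofPoly (NPC.Poly.snd Poly.id))
    (hf.comp (NPC.Poly.fst Poly.id)))
  tfae_have 2 → 3 := fun h => ⟨_, h, fun B k _ => bits_mem_lang⟩
  tfae_have 3 → 4 := by
    rintro ⟨A, hA, h⟩
    have hG : CPr C (fun z : List (List ℕ) × ℕ => bits z ∈ A) := ⟨A, hA, fun _ => Iff.rfl⟩
    have h1 : CPr C (fun z : List (List ℕ) × ℕ => bits (z.1, z.2 - 1) ∈ A) :=
      hG.comp hC (f := fun z : List (List ℕ) × ℕ => (z.1, z.2 - 1))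
        (NPC.Poly.pair (NPC.Poly.fst Poly.id) (NPC.Poly.sub (NPC.Poly.snd Poly.id) (NPC.Poly.const 1)))
    have h2 : CPr C (fun z : List (List ℕ) × ℕ => decide (z.2 = 0) = true) :=
      CPr.poly hC (NPC.Poly.decide_eq (NPC.Poly.snd Poly.id) (NPC.Poly.const 0))
    refine ⟨_, lang_of_cpr hC ((hG.not hC).and hC (h2.or hC h1)), fun B k hB => ?_⟩
    rw [bits_mem_lang]
    simp only [decide_eq_true_eq]
    rw [h B k hB, h B (k - 1) hB]
    omega
  tfae_have 4 → 1 := by
    rintro ⟨A, hA, h⟩ L hL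
    exact pp_sub hC hqs hpost hsize hA (fun φ B hB k => h B k (hqs2 φ B hB)) hL
  tfae_finish

end

theorem tfae_paths (hC : Cl C) : List.TFAE [
      ∀ L : Set (List Bool), InPPclass L → C L,
      C (lang fun x : List (List ℕ) × ℕ => x.2 < hamPaths x.1),
      ∃ A : Set (List Bool), C A ∧ ∀ (B : List (List ℕ)) (k : ℕ), TwoTransitive B →
        (bits (B, k) ∈ A ↔ k < hamPaths B),
      ∃ A : Set (List Bool), C A ∧ ∀ (B : List (List ℕ)) (k : ℕ), TwoTransitive B →
        (bits (B, k) ∈ A ↔ hamPaths B = k)] := by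
  refine tfae hC qsP_poly (fun φ => postH_paths φ hamPaths fun _ _ => rfl) ?_
    (countP_of_str sharpP_paths) size_paths
  intro φ B hB
  rw [qsP, List.mem_map] at hB
  obtain ⟨t, _, rfl⟩ := hB
  exact twoTransitive_tb _ _ _

theorem tfae_cycles (hC : Cl C) : List.TFAE [
      ∀ L : Set (List Bool), InPPclass L → C L,
      C (lang fun x : List (List ℕ) × ℕ => x.2 < hamCycles x.1),
      ∃ A : Set (List Bool), C A ∧ ∀ (B : List (List ℕ)) (k : ℕ), TwoTransitive B →
        (bits (B, k) ∈ A ↔ k < hamCycles B),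
      ∃ A : Set (List Bool), C A ∧ ∀ (B : List (List ℕ)) (k : ℕ), TwoTransitive B →
        (bits (B, k) ∈ A ↔ hamCycles B = k)] := by
  refine tfae hC qsC_poly (fun φ => postH_cycles φ hamCycles fun _ _ => rfl) ?_
    (countP_of_str sharpP_cycles) size_cycles
  intro φ B hB
  rw [qsC, List.mem_map] at hB
  obtain ⟨t, _, rfl⟩ := hB
  exact twoTransitive_cyc _ _ (tb_cond _ _ _)

theorem pp_paths : InPPclass (lang fun x : List (List ℕ) × ℕ => x.2 < hamPaths x.1) :=
  Pool.Agent.NPC.G276.inPP_lt (CountP.ofPoly (NPC.Poly.snd Poly.id))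
    ((countP_of_str sharpP_paths).comp (NPC.Poly.fst Poly.id))

theorem pp_cycles : InPPclass (lang fun x : List (List ℕ) × ℕ => x.2 < hamCycles x.1) :=
  Pool.Agent.NPC.G276.inPP_lt (CountP.ofPoly (NPC.Poly.snd Poly.id))
    ((countP_of_str sharpP_cycles).comp (NPC.Poly.fst Poly.id))

end Pool.Agent.TH925.TP.Fin
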