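import Pool.Agent.TH925.TP.Red
import Pool.Agent.H276R3.Hard

/-!
# The numbers of Hamiltonian paths and cycles are in `#P`
-/

set_option autoImplicit false

namespace Pool.Agent.NPC.TH925TP

open Pool.Agent.NPC.Cnt Pool.Agent.TH925.TP Pool.Agent.NPC.G276 Pool.Agent.NPC.Med

/-- the test for arcs -/
def arcB (x : List (List ℕ) × ℕ × ℕ) : Bool :=
  (decide (x.2.1 < x.2.2) && !decide (x.2.1 ∈ x.1.getD x.2.2 [])) ||
    (decide (x.2.2 < x.2.1) && decide (x.2.2 ∈ x.1.getD x.2.1 []))

theorem arcB_iff (B : List (List ℕ)) (u v : ℕ) : arcB (B, u, v) = true ↔ Arc B u v := by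
  simp only [arcB, Arc, Bool.or_eq_true, Bool.and_eq_true, decide_eq_true_eq, Bool.not_eq_true',
    decide_eq_false_iff_not]

theorem arcB_poly : Poly arcB := by
  have hB : Poly (fun x : List (List ℕ) × ℕ × ℕ => x.1) := Poly.fst Poly.id
  have hu : Poly (fun x : List (List ℕ) × ℕ × ℕ => x.2.1) := Poly.fst (Poly.snd Poly.id)
  have hv : Poly (fun x : List (List ℕ) × ℕ × ℕ => x.2.2) := Poly.snd (Poly.snd Poly.id)
  exact Poly.or (Poly.and (Poly.decide_lt hu hv) (Poly.not (Poly.decide_mem hu
    (Poly.getD hB hv (Poly.const []))))) (Poly.and (Poly.decide_lt hv hu) (Poly.decide_mem hv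
    (Poly.getD hB hu (Poly.const []))))

/-- the test for walks -/
def chainB (x : List (List ℕ) × List ℕ) : Bool :=
  (List.range (x.2.length - 1)).all (fun i => arcB (x.1, x.2.getD i 0, x.2.getD (i + 1) 0))

theorem chainB_iff (B : List (List ℕ)) (w : List ℕ) : chainB (B, w) = true ↔ w.IsChain (Arc B) := by
  rw [chainB, List.all_eq_true, isChain_getD]
  constructor
  · intro h i hi
    have := h i (List.mem_range.2 (by simp only; omega))
    rwa [arcB_iff] at this
  · intro h i hi
    rw [List.mem_range] at hi
    rw [arcB_iff]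
    exact h i (by simp only at hi; omega)

theorem chainB_poly : Poly chainB := by
  have h1 : Poly (fun x : List (List ℕ) × List ℕ => List.range (x.2.length - 1)) := by
    refine UPoly.range ?_
    exact UPoly.of_le (Poly.sub (Poly.length (Poly.snd Poly.id)) (Poly.const 1))
      (UPoly.length (Poly.snd Poly.id)) (fun _ => Nat.sub_le _ _)
  have hw : Poly (fun x : (List (List ℕ) × List ℕ) × ℕ => x.1.2) := Poly.snd (Poly.fst Poly.id)
  have hi : Poly (fun x : (List (List ℕ) × List ℕ) × ℕ => x.2) := Poly.snd Poly.id
  refine Poly.all (p := fun (x : List (List ℕ) × List ℕ) i =>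
    arcB (x.1, x.2.getD i 0, x.2.getD (i + 1) 0)) h1 ?_
  exact arcB_poly.comp (f := fun x : (List (List ℕ) × List ℕ) × ℕ =>
    (x.1.1, x.1.2.getD x.2 0, x.1.2.getD (x.2 + 1) 0)) (Poly.pair (Poly.fst (Poly.fst Poly.id))
    (Poly.pair (Poly.getD hw hi (Poly.const 0)) (Poly.getD hw (Poly.succ hi) (Poly.const 0))))

/-- the test for permutations of `0, …, n - 1` -/
def permB (x : List (List ℕ) × List ℕ) : Bool :=
  decide (x.2.length = x.1.length) && (List.range x.1.length).all (fun v => decide (v ∈ x.2))

theorem permB_iff (B : List (List ℕ)) (w : List ℕ) :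
    permB (B, w) = true ↔ w.Perm (List.range B.length) := by
  rw [permB, Bool.and_eq_true, decide_eq_true_eq, List.all_eq_true]
  simp only [decide_eq_true_eq]
  constructor
  · rintro ⟨h1, h2⟩
    have h3 : (List.range B.length).Subperm w :=
      List.nodup_range.subperm fun v hv => h2 v hv
    exact (h3.perm_of_length_le (by rw [List.length_range]; omega)).symm
  · intro h
    refine ⟨by rw [h.length_eq, List.length_range], fun v hv => h.mem_iff.2 hv⟩

theorem permB_poly : Poly permB := by
  have h1 : Poly (fun x : List (List ℕ) × List ℕ => decide (x.2.length = x.1.length)) :=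
    Poly.decide_eq (Poly.length (Poly.snd Poly.id)) (Poly.length (Poly.fst Poly.id))
  refine Poly.and h1 (Poly.all (p := fun (x : List (List ℕ) × List ℕ) v => decide (v ∈ x.2))
    (Poly.range_length (Poly.fst Poly.id)) ?_)
  exact Poly.decide_mem (Poly.snd Poly.id) (Poly.snd (Poly.fst Poly.id))

/-- the certificates for paths -/
def certP (B : List (List ℕ)) (w : List ℕ) : Bool := permB (B, w) && chainB (B, w)

/-- the certificates for cycles -/
def certC (B : List (List ℕ)) (w : List ℕ) : Bool :=
  permB (B, 0 :: w) && chainB (B, 0 :: (w ++ [0]))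

theorem certP_iff (B : List (List ℕ)) (w : List ℕ) : certP B w = true ↔
    w.Perm (List.range B.length) ∧ w.IsChain (Arc B) := by
  rw [certP, Bool.and_eq_true, permB_iff, chainB_iff]

theorem certC_iff (B : List (List ℕ)) (w : List ℕ) : certC B w = true ↔
    (0 :: w).Perm (List.range B.length) ∧ (0 :: (w ++ [0])).IsChain (Arc B) := by
  rw [certC, Bool.and_eq_true, permB_iff, chainB_iff]

theorem certP_poly : Poly (fun x : List (List ℕ) × List ℕ => certP x.1 x.2) :=
  Poly.and permB_poly chainB_poly

theorem certC_poly : Poly (fun x : List (List ℕ) × List ℕ => certC x.1 x.2) := by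
  have h0 : Poly (fun x : List (List ℕ) × List ℕ => x.2) := Poly.snd Poly.id
  exact Poly.and
    (permB_poly.comp (f := fun x : List (List ℕ) × List ℕ => (x.1, 0 :: x.2))
      (Poly.pair (Poly.fst Poly.id) (Poly.cons (Poly.const 0) h0)))
    (chainB_poly.comp (f := fun x : List (List ℕ) × List ℕ => (x.1, 0 :: (x.2 ++ [0])))
      (Poly.pair (Poly.fst Poly.id) (Poly.cons (Poly.const 0) (Poly.append h0 (Poly.const [0])))))

theorem sz_w {n : ℕ} {w : List ℕ} (h1 : w.length ≤ n) (h2 : ∀ v ∈ w, v < n) :
    sz w ≤ n * (4 * n + 2) + 1 := by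
  have h1' : ∀ a ∈ w, sz a ≤ 4 * n + 1 := by
    intro a ha
    have h3 := sz_nat_le a
    have h4 : a.size ≤ a := Nat.size_le.2 Nat.lt_two_pow_self
    have := h2 a ha
    omega
  have h2' := sz_le_length_mul w _ h1'
  have h4 : w.length * (4 * n + 1 + 1) ≤ n * (4 * n + 2) := Nat.mul_le_mul (by omega) (by omega)
  omega

theorem sz_bound {B : List (List ℕ)} {w : List ℕ} (h1 : w.length ≤ B.length)
    (h2 : ∀ v ∈ w, v < B.length) : sz w ≤
      (Polynomial.X * (Polynomial.C 4 * Polynomial.X + Polynomial.C 2) +
        Polynomial.C 1 : Polynomial ℕ).eval (sz B) := by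
  have h3 := sz_w h1 h2
  have h4 := (length_lt_sz B).le
  simp only [Polynomial.eval_add, Polynomial.eval_mul, Polynomial.eval_X, Polynomial.eval_C]
  have h5 : B.length * (4 * B.length + 2) ≤ sz B * (4 * sz B + 2) :=
    Nat.mul_le_mul h4 (by omega)
  omega

theorem sharpP_paths : SharpP (strFn hamPaths) := by
  have h := sharpP_typed certP certP_poly
    (Polynomial.X * (Polynomial.C 4 * Polynomial.X + Polynomial.C 2) + Polynomial.C 1) ?_
  · have e : (fun B : List (List ℕ) => Nat.card {w : List ℕ // certP B w = true}) = hamPaths := by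
      funext B
      exact Nat.card_congr (Equiv.subtypeEquivRight fun w => certP_iff B w)
    rw [e] at h
    exact h
  · intro B w hc
    have h1 := ((certP_iff B w).1 hc).1
    refine sz_bound ?_ fun v hv => List.mem_range.1 (h1.mem_iff.1 hv)
    rw [h1.length_eq, List.length_range]

theorem sharpP_cycles : SharpP (strFn hamCycles) := by
  have h := sharpP_typed certC certC_poly
    (Polynomial.X * (Polynomial.C 4 * Polynomial.X + Polynomial.C 2) + Polynomial.C 1) ?_
  · have e : (fun B : List (List ℕ) => Nat.card {w : List ℕ // certC B w = true}) = hamCycles := by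
      funext B
      exact Nat.card_congr (Equiv.subtypeEquivRight fun w => certC_iff B w)
    rw [e] at h
    exact h
  · intro B w hc
    have h1 := ((certC_iff B w).1 hc).1
    refine sz_bound ?_ fun v hv => List.mem_range.1 (h1.mem_iff.1 (List.mem_cons_of_mem _ hv))
    have := h1.length_eq
    rw [List.length_range, List.length_cons] at this
    omega

theorem countP_of_str {f : List (List ℕ) → ℕ} (hf : SharpP (strFn f)) : CountP f :=
  ((countP_of_sharpP hf).comp (g := fun l : List (List ℕ) => bits l) Med.poly_bits).congr fun l =>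
    strFn_bits f l

/-! ### the values have polynomial length -/

theorem size_paths (B : List (List ℕ)) : (hamPaths B).size ≤ B.length * B.length + 1 := by
  have h1 : hamPaths B ≤ B.length ^ B.length := by
    have h2 : hamPaths B ≤ Nat.card {l : List ℕ // l ∈ (List.range B.length).permutations} := by
      refine Nat.card_le_card_of_injective (fun l => (⟨l.1, List.mem_permutations.2 l.2.1⟩ :
        {l : List ℕ // l ∈ (List.range B.length).permutations})) ?_
      intro l l' h
      simp only [Subtype.mk.injEq] at h
      exact Subtype.ext h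
    refine h2.trans ?_
    have h3 : Nat.card {l : List ℕ // l ∈ (List.range B.length).permutations} ≤
        (List.range B.length).permutations.length := by
      rw [show {l : List ℕ // l ∈ (List.range B.length).permutations} =
        {l : List ℕ // l ∈ (List.range B.length).permutations.toFinset} by simp]
      rw [Nat.card_eq_fintype_card, Fintype.card_coe]
      exact List.toFinset_card_le _
    refine h3.trans ?_
    rw [List.length_permutations, List.length_range]
    exact Nat.factorial_le_pow _
  have h3 : B.length ^ B.length ≤ (2 ^ B.length) ^ B.length :=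
    Nat.pow_le_pow_left (Nat.lt_two_pow_self).le _
  rw [← pow_mul] at h3
  have h4 : 2 ^ (B.length * B.length) < 2 ^ (B.length * B.length + 1) :=
    Nat.pow_lt_pow_right (by norm_num) (by omega)
  rw [Nat.size_le]
  omega

theorem size_cycles (B : List (List ℕ)) : (hamCycles B).size ≤ B.length * B.length + 1 := by
  refine (Nat.size_le_size ?_).trans (size_paths B)
  have hfin : Finite {l : List ℕ // l.Perm (List.range B.length) ∧ l.IsChain (Arc B)} := by
    refine Finite.of_injective (β := {l : List ℕ // l ∈ (List.range B.length).permutations})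
      (fun l => ⟨l.1, List.mem_permutations.2 l.2.1⟩) ?_
    intro l l' h
    simp only [Subtype.mk.injEq] at h
    exact Subtype.ext h
  refine Nat.card_le_card_of_injective (fun l => (⟨0 :: l.1, l.2.1, ?_⟩ :
    {l : List ℕ // l.Perm (List.range B.length) ∧ l.IsChain (Arc B)})) ?_
  · have h1 := l.2.2
    rw [← List.cons_append, List.isChain_append] at h1
    exact h1.1
  · intro l l' h
    simp only [Subtype.mk.injEq, List.cons.injEq, true_and] at h
    exact Subtype.ext h

end Pool.Agent.NPC.TH925TP
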