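import Pool.Agent.TH925.TP.Core2
import Pool.Agent.H549R2.PM7

/-!
# The permanent from the number of Hamiltonian paths
-/

set_option autoImplicit false

namespace Pool.Agent.TH925.TP

open Finset Pool.Agent.H549R2.Convex

/-- the pairs of bijections are the pairs of a bijection and a permutation with a nonzero term -/
noncomputable def ppEquiv (r : ℕ) (a : ℕ → ℕ → Prop) : PP r a ≃
    Equiv.Perm (Fin r) × {σ : Equiv.Perm (Fin r) // ∀ i : Fin r, a i (σ i)} where
  toFun q := (Equiv.ofBijective q.1.2 (Finite.injective_iff_bijective.1 q.2.2.1),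
    ⟨(Equiv.ofBijective q.1.1 (Finite.injective_iff_bijective.1 q.2.1)).trans
      (Equiv.ofBijective q.1.2 (Finite.injective_iff_bijective.1 q.2.2.1)).symm, fun i => by
        refine q.2.2.2 i _ ?_
        have h1 := (Equiv.ofBijective q.1.2 (Finite.injective_iff_bijective.1 q.2.2.1)).apply_symm_apply
          (q.1.1 i)
        exact h1.symm⟩)
  invFun x := ⟨(fun i => x.1 (x.2.1 i), x.1), fun i j h => x.2.1.injective (x.1.injective h),
    x.1.injective, fun i j h => by
      have h1 : x.2.1 i = j := x.1.injective h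
      rw [← h1]
      exact x.2.2 i⟩
  left_inv q := by
    apply Subtype.ext
    apply Prod.ext
    · funext i
      exact (Equiv.ofBijective q.1.2 (Finite.injective_iff_bijective.1 q.2.2.1)).apply_symm_apply
          (q.1.1 i)
    · rfl
  right_inv x := by
    apply Prod.ext
    · apply Equiv.ext
      intro i
      rfl
    · apply Subtype.ext
      apply Equiv.ext
      intro i
      show (Equiv.ofBijective x.1 x.1.bijective).symm (x.1 (x.2.1 i)) = x.2.1 i
      rw [Equiv.symm_apply_eq]
      rfl

theorem card_PP (A : List (List Bool)) (h : ∀ r ∈ A, r.length = A.length) (N : ℕ)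
    (hN : A.length = N) :
    Nat.card (PP N (fun i j => ent A i j = true)) = N.factorial * F A := by
  classical
  rw [Nat.card_congr (ppEquiv N _), Nat.card_prod, F_eq_card' A h N hN,
    Nat.card_eq_fintype_card (α := Equiv.Perm (Fin N)), Fintype.card_perm, Fintype.card_fin,
    Nat.card_eq_fintype_card, Fintype.card_subtype]

theorem F_le (A : List (List Bool)) (h : ∀ r ∈ A, r.length = A.length) (N : ℕ)
    (hN : A.length = N) : F A ≤ N.factorial := by
  classical
  rw [F_eq_card' A h N hN]
  refine (Finset.card_filter_le _ _).trans ?_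
  rw [Finset.card_univ, Fintype.card_perm, Fintype.card_fin]

/-- the number of fillers -/
def gf (r : ℕ) : ℕ := r * (r * (2 * r + 1) + 2)

/-- the weight of a term of the permanent -/
def W (r : ℕ) : ℕ := r.factorial * ((r + 1) ^ gf r - (r + 1) * r ^ gf r)

theorem bern (r : ℕ) (hr : 1 ≤ r) : 2 * r ^ r ≤ (r + 1) ^ r := by
  have h0 : (0 : ℚ) < r := by exact_mod_cast hr
  have h1 := one_add_mul_le_pow (R := ℚ) (a := 1 / r) (by
    have : (0 : ℚ) < 1 / r := by positivity
    linarith) r
  have h2 : (1 : ℚ) + r * (1 / r) = 2 := by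
    field_simp
    norm_num
  rw [h2] at h1
  have h3 : (1 + 1 / (r : ℚ)) ^ r * r ^ r = (r + 1) ^ r := by
    rw [← mul_pow]
    congr 1
    field_simp
  have h4 : (2 : ℚ) * r ^ r ≤ (r + 1) ^ r := by
    rw [← h3]
    exact mul_le_mul_of_nonneg_right h1 (by positivity)
  exact_mod_cast h4

theorem big (r : ℕ) (hr : 1 ≤ r) : r ^ gf r * (3 * (r + 1) ^ (2 * r + 1)) < (r + 1) ^ gf r := by
  have h1 : (2 * r ^ r) ^ (r * (2 * r + 1) + 2) ≤ (r + 1) ^ gf r := by
    rw [gf, pow_mul]
    exact Nat.pow_le_pow_left (bern r hr) _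
  refine lt_of_lt_of_le ?_ h1
  rw [mul_pow, ← pow_mul, ← gf, mul_comm]
  refine Nat.mul_lt_mul_of_pos_right ?_ (by positivity)
  have h2 : r + 1 ≤ 2 ^ r := by
    have := Nat.lt_two_pow_self (n := r)
    omega
  have h3 : (r + 1) ^ (2 * r + 1) ≤ 2 ^ (r * (2 * r + 1)) := by
    rw [pow_mul]
    exact Nat.pow_le_pow_left h2 _
  have h4 : 2 ^ (r * (2 * r + 1) + 2) = 2 ^ (r * (2 * r + 1)) * 4 := by rw [pow_add]; norm_num
  have : 0 < 2 ^ (r * (2 * r + 1)) := by positivity
  omega

/-- **The permanent from the number of Hamiltonian paths.** -/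
theorem perm_eq (A : List (List Bool)) (h : ∀ r ∈ A, r.length = A.length) (N : ℕ)
    (hN : A.length = N) (hN1 : 1 ≤ N) :
    Nat.card {l : List ℕ // IsHP N (gf N) (fun i j => ent A i j = true) l} / W N = F A := by
  have h1 := le_card_HP N (gf N) (fun i j => ent A i j = true)
  have h2 := card_HP_le N (gf N) (fun i j => ent A i j = true)
  rw [card_PP A h N hN] at h1 h2
  have h3 := big N hN1
  have h4 := F_le A h N hN
  have h5 : (N + 1) * N ^ gf N ≤ (N + 1) ^ gf N := by
    refine le_trans ?_ h3.le
    rw [mul_comm]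
    refine Nat.mul_le_mul_left _ ?_
    calc N + 1 = (N + 1) ^ 1 := (pow_one _).symm
      _ ≤ (N + 1) ^ (2 * N + 1) := Nat.pow_le_pow_right (by omega) (by omega)
      _ ≤ _ := by omega
  apply Nat.div_eq_of_lt_le
  · rw [W]
    calc F A * (N.factorial * ((N + 1) ^ gf N - (N + 1) * N ^ gf N))
        = N.factorial * F A * ((N + 1) ^ gf N - (N + 1) * N ^ gf N) := by ring
      _ ≤ _ := h1
  · refine lt_of_le_of_lt h2 ?_
    rw [W]
    obtain ⟨d, hd⟩ := Nat.exists_eq_add_of_le h5
    have h6 : (N + 1) ^ gf N - (N + 1) * N ^ gf N = d := by omega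
    rw [h6]
    have hf : 1 ≤ N.factorial := Nat.factorial_pos N
    have hf2 : N.factorial ≤ N ^ N := Nat.factorial_le_pow N
    have hf3 : N ^ N ≤ (N + 1) ^ N := Nat.pow_le_pow_left (by omega) _
    -- the bound
    have h7 : N ^ (N + gf N + N) + N.factorial * F A * ((N + 1) * N ^ gf N) <
        N.factorial * d := by
      have e1 : N ^ (N + gf N + N) = N ^ gf N * N ^ (2 * N) := by
        rw [← pow_add]
        congr 1
        omega
      have e2 : N ^ (2 * N) ≤ (N + 1) ^ (2 * N) := Nat.pow_le_pow_left (by omega) _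
      have e3 : N.factorial * F A ≤ (N + 1) ^ (2 * N) := by
        calc N.factorial * F A ≤ (N + 1) ^ N * (N + 1) ^ N :=
              Nat.mul_le_mul (hf2.trans hf3) (h4.trans (hf2.trans hf3))
          _ = (N + 1) ^ (2 * N) := by rw [← pow_add]; congr 1; omega
      have e4 : (N + 1) ^ (2 * N + 1) = (N + 1) ^ (2 * N) * (N + 1) := pow_succ _ _
      have e5 : N.factorial * ((N + 1) ^ gf N) ≥ N.factorial * (N ^ gf N * (3 * (N + 1) ^ (2 * N + 1)) + 1) :=
        Nat.mul_le_mul_left _ h3
      rw [hd] at e5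
      have e6 : N.factorial ≤ (N + 1) ^ (2 * N) := by
        refine (hf2.trans hf3).trans (Nat.pow_le_pow_right (by omega) (by omega))
      rw [e1]
      set X := N ^ gf N
      set Y := (N + 1) ^ (2 * N)
      rw [e4] at e5
      have e7 : X * N ^ (2 * N) ≤ X * Y := Nat.mul_le_mul_left _ e2
      have e8 : N.factorial * F A * ((N + 1) * X) ≤ Y * ((N + 1) * X) :=
        Nat.mul_le_mul_right _ e3
      have e9 : N.factorial * ((N + 1) * X) ≤ Y * ((N + 1) * X) := Nat.mul_le_mul_right _ e6
      have e10 : X * Y ≤ Y * ((N + 1) * X) := by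
        calc X * Y = Y * (1 * X) := by ring
          _ ≤ Y * ((N + 1) * X) := by gcongr; omega
      have e11 : N.factorial * (X * (3 * (Y * (N + 1))) + 1) =
          N.factorial * (3 * (Y * ((N + 1) * X))) + N.factorial := by ring
      have e12 : 3 * (Y * ((N + 1) * X)) ≤ N.factorial * (3 * (Y * ((N + 1) * X))) :=
        Nat.le_mul_of_pos_left _ hf
      rw [e11, mul_add] at e5
      omega
    calc N ^ (N + gf N + N) + N.factorial * F A * (N + 1) ^ gf N
        = N ^ (N + gf N + N) + N.factorial * F A * ((N + 1) * N ^ gf N) +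
          N.factorial * F A * d := by rw [hd]; ring
      _ < N.factorial * d + N.factorial * F A * d := Nat.add_lt_add_right h7 _
      _ = (F A + 1) * (N.factorial * d) := by ring

end Pool.Agent.TH925.TP
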