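import Pool.Agent.TH925.TP.Defs
import Pool.Agent.TH925.TP.Perm

/-!
# The tournament of a 0-1 matrix
-/

set_option autoImplicit false

namespace Pool.Agent.TH925.TP

open Pool.Agent.H549R2.Convex

/-- The tournament of a matrix with `r` rows and columns and with `g` fillers. -/
def tb (A : List (List Bool)) (r g : ℕ) : List (List ℕ) :=
  (List.range (r + g)).map (fun _ => []) ++
    (List.range r).map (fun j => (List.range r).filter (fun i => ent A i j))

theorem tb_length (A : List (List Bool)) (r g : ℕ) : (tb A r g).length = r + g + r := by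
  simp [tb]

theorem tb_low (A : List (List Bool)) (r g : ℕ) {v : ℕ} (hv : v < r + g) :
    (tb A r g).getD v [] = [] := by
  rw [tb, List.getD_append _ _ _ _ (by simpa using hv), List.getD_eq_getElem _ _ (by simpa using hv)]
  simp

theorem tb_high (A : List (List Bool)) (r g : ℕ) {j : ℕ} (hj : j < r) :
    (tb A r g).getD (r + g + j) [] = (List.range r).filter (fun i => ent A i j) := by
  rw [tb, List.getD_append_right _ _ _ _ (by simp)]
  rw [List.length_map, List.length_range, show r + g + j - (r + g) = j by omega,
    List.getD_eq_getElem _ _ (by simpa using hj)]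
  simp

theorem mem_tb (A : List (List Bool)) (r g : ℕ) {u v : ℕ} (hv : v < r + g + r) :
    u ∈ (tb A r g).getD v [] ↔ u < r ∧ r + g ≤ v ∧ ent A u (v - (r + g)) = true := by
  rcases Nat.lt_or_ge v (r + g) with h | h
  · rw [tb_low A r g h]
    simp only [List.not_mem_nil, false_iff]
    omega
  · obtain ⟨j, rfl⟩ := Nat.exists_eq_add_of_le h
    rw [tb_high A r g (by omega), List.mem_filter, List.mem_range,
      show r + g + j - (r + g) = j by omega]
    simp

theorem arc_tb (A : List (List Bool)) (r g : ℕ) {u v : ℕ} (hu : u < r + g + r)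
    (hv : v < r + g + r) :
    Arc (tb A r g) u v ↔ Ar r g (fun i j => ent A i j = true) u v := by
  unfold Arc Ar
  rw [mem_tb A r g hu, mem_tb A r g hv]

theorem hamPaths_tb (A : List (List Bool)) (r g : ℕ) :
    hamPaths (tb A r g) =
      Nat.card {l : List ℕ // IsHP r g (fun i j => ent A i j = true) l} := by
  unfold hamPaths IsHP
  rw [tb_length]
  refine Nat.card_congr (Equiv.subtypeEquivRight fun l => and_congr_right fun hl => ?_)
  refine isChain_congr_mem fun u hu v hv => ?_
  exact arc_tb A r g (List.mem_range.1 (hl.mem_iff.1 hu)) (List.mem_range.1 (hl.mem_iff.1 hv))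

theorem tb_cond (A : List (List Bool)) (r g : ℕ) : ∀ u v, u < v → v < (tb A r g).length →
    u ∈ (tb A r g).getD v [] → (u ∈ {x | x < r + g} ∧ v ∉ {x | x < r + g}) := by
  intro u v _ hv h
  rw [tb_length] at hv
  rw [mem_tb A r g hv] at h
  simp only [Set.mem_ofPred_eq]
  omega

theorem twoTransitive_tb (A : List (List Bool)) (r g : ℕ) : TwoTransitive (tb A r g) :=
  twoTransitive_of _ _ (tb_cond A r g)

/-- **The permanent from the number of Hamiltonian paths.** -/
theorem hamPaths_div (A : List (List Bool)) (h : ∀ r ∈ A, r.length = A.length) (N : ℕ)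
    (hN : A.length = N) (hN1 : 1 ≤ N) : hamPaths (tb A N (gf N)) / W N = F A := by
  rw [hamPaths_tb]
  exact perm_eq A h N hN hN1

theorem hamCycles_div (A : List (List Bool)) (h : ∀ r ∈ A, r.length = A.length) (N : ℕ)
    (hN : A.length = N) (hN1 : 1 ≤ N) : hamCycles (cyc (tb A N (gf N))) / W N = F A := by
  rw [hamCycles_cyc _ (by rw [tb_length]; omega)]
  exact hamPaths_div A h N hN hN1

end Pool.Agent.TH925.TP
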